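import Mathlib
import Pool.Agent.X328.FP.Bas
import Pool.Agent.Y784.CH.A

/-! # Project FP: the height of a value (S_STEP) -/

set_option autoImplicit false

namespace Pool.Agent.X263.FP

open Finset Polynomial Pool.Agent.W277.UB Pool.Agent.W277.UB.PlaceData Pool.Agent.X328.FP

universe u v w

lemma res_ne {K : Type*} [Field K] (d : ℕ) (p q : Polynomial K) (hp : p.natDegree ≤ d)
    (hq : q.natDegree = d) (hd : 1 ≤ d) (hco : IsCoprime p q) : resultant q p d d ≠ 0 := by
  intro h0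
  set φ := algebraMap K (AlgebraicClosure K) with hφ
  have h1 := resultant_eq_prod_eval (q.map φ) (p.map φ) d (natDegree_map_le.trans hp)
    (IsAlgClosed.splits _)
  rw [natDegree_map, hq, resultant_map_map, h0, map_zero] at h1
  have hq0 : q.map φ ≠ 0 := by
    intro h
    have h2 : (q.map φ).natDegree = d := by rw [natDegree_map, hq]
    rw [h, natDegree_zero] at h2
    omega
  have h2 := (mul_eq_zero.mp h1.symm).resolve_left (pow_ne_zero _ (leadingCoeff_ne_zero.mpr hq0))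
  rw [Multiset.prod_eq_zero_iff, Multiset.mem_map] at h2
  obtain ⟨x, hx, hpx⟩ := h2
  have hqx : (q.map φ).eval x = 0 := (mem_roots hq0).mp hx
  obtain ⟨u, w, h⟩ := hco
  have h3 := congrArg (fun g : Polynomial K => (g.map φ).eval x) h
  simp only [Polynomial.map_add, Polynomial.map_mul, Polynomial.map_one, eval_add, eval_mul,
    eval_one] at h3
  rw [hpx, hqx, mul_zero, mul_zero, add_zero] at h3
  exact zero_ne_one h3

section

variable {k K : Type*} [Field k] [Field K] [Algebra k K]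

lemma prod_zero (Q : PlaceData k K) (S : Finset Q.Pl) (x : K) (hx : x ≠ 0)
    (hS : ∀ v, v ∉ S → Q.ord v x = 0) : ∑ v ∈ S, Q.wt v * Q.ord v x = 0 := by
  have h1 := Q.prod_formula x hx S fun v hv => (hS v hv).ge
  have h2 := Q.prod_formula x⁻¹ (inv_ne_zero hx) S fun v hv => by
    rw [PlaceData.ord_inv hx, hS v hv]
    simp
  have h3 : ∑ v ∈ S, Q.wt v * Q.ord v x⁻¹ = -∑ v ∈ S, Q.wt v * Q.ord v x := by
    rw [← Finset.sum_neg_distrib]
    apply Finset.sum_congr rfl
    intro v _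
    rw [PlaceData.ord_inv hx]
    ring
  linarith

lemma hQ_eq (Q : PlaceData k K) (x : K) (S : Finset Q.Pl) (hS : ∀ v, v ∉ S → Q.pole v x = 0) :
    ∑ v ∈ S, Q.wt v * Q.pole v x = hQ Q x := by
  unfold hQ
  symm
  apply finsum_eq_sum_of_support_subset
  intro v hv
  rw [Function.mem_support] at hv
  rw [Finset.mem_coe]
  by_contra h
  exact hv (by rw [hS v h, mul_zero])

/-- a finite set of places outside of which finitely many elements are units -/
lemma exists_S (Q : PlaceData k K) (E : Finset K) :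
    ∃ T : Finset Q.Pl, ∀ v, v ∉ T → ∀ x ∈ E, (x ≠ 0 → Q.ord v x = 0) ∧ Q.pole v x = 0 := by
  classical
  refine ⟨E.biUnion (fun x => if h : x ≠ 0 then (Q.fin x h).toFinset else ∅), ?_⟩
  intro v hv x hx
  have h1 : x ≠ 0 → Q.ord v x = 0 := by
    intro hx0
    by_contra h
    apply hv
    rw [Finset.mem_biUnion]
    refine ⟨x, hx, ?_⟩
    rw [dif_pos hx0, Set.Finite.mem_toFinset]
    exact h
  refine ⟨h1, ?_⟩
  by_cases hx0 : x = 0
  · rw [hx0, pole_zero]
  · rw [pole_of_ne hx0, h1 hx0]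
    simp

/-- the local inequality -/
lemma loc (Q : PlaceData k K) (v : Q.Pl) (d : ℕ) (hd : 1 ≤ d) (p q : K[X]) (hp : p.natDegree ≤ d)
    (hq : q.natDegree = d) (hR : resultant q p d d ≠ 0) (M : ℤ)
    (hpM : ∀ i, Q.G v (-M) (p.coeff i)) (hqM : ∀ i, Q.G v (-M) (q.coeff i)) (x : K)
    (hx : q.eval x ≠ 0) :
    (d : ℤ) * Q.pole v x ≤ Q.ord v (resultant q p d d) - Q.ord v (q.eval x) +
      Q.pole v (vl p q x) + (2 * d - 1) * M := by
  classical
  have hq0 : q ≠ 0 := by
    rintro rfl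
    rw [natDegree_zero] at hq
    omega
  have hne : (p.coeffs ∪ q.coeffs).Nonempty := by
    refine ⟨q.leadingCoeff, Finset.mem_union_right _ ?_⟩
    rw [mem_coeffs_iff]
    exact ⟨q.natDegree, natDegree_mem_support_of_nonzero hq0, rfl⟩
  obtain ⟨c, hcm, hcmin⟩ := Finset.exists_min_image (p.coeffs ∪ q.coeffs) (fun x => Q.ord v x) hne
  have hcc : c ≠ 0 ∧ -M ≤ Q.ord v c := by
    rcases Finset.mem_union.mp hcm with h | h
    · rw [mem_coeffs_iff] at h
      obtain ⟨i, hi, rfl⟩ := h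
      exact ⟨mem_support_iff.mp hi, hpM i (mem_support_iff.mp hi)⟩
    · rw [mem_coeffs_iff] at h
      obtain ⟨i, hi, rfl⟩ := h
      exact ⟨mem_support_iff.mp hi, hqM i (mem_support_iff.mp hi)⟩
  obtain ⟨hc0, hcM⟩ := hcc
  have hpc : ∀ i, Q.G v (Q.ord v c) (p.coeff i) := by
    intro i hi
    exact hcmin _ (Finset.mem_union_left _ (mem_coeffs_iff.mpr ⟨i, mem_support_iff.mpr hi, rfl⟩))
  have hqc : ∀ i, Q.G v (Q.ord v c) (q.coeff i) := by
    intro i hi
    exact hcmin _ (Finset.mem_union_right _ (mem_coeffs_iff.mpr ⟨i, mem_support_iff.mpr hi, rfl⟩))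
  have h1 : Q.G v (Q.ord v (q.eval x) - Q.pole v (vl p q x)) (p.eval x) := by
    have h3 := G_mul (Q := Q) (G_self (v := v) (x := q.eval x)) (G_pole v (vl p q x))
    unfold vl at h3
    rw [mul_div_cancel₀ _ hx] at h3
    exact G_mono h3 (by unfold vl; omega)
  have h2 : Q.G v (Q.ord v (q.eval x) - Q.pole v (vl p q x)) (q.eval x) := by
    intro _
    have := pole_nonneg v (vl p q x)
    omega
  have h3 := Pool.Agent.Y784.CH.low d hd p q hp hq.le c hc0 hpc hqc hR x _ h1 h2
  have hd1 : (1 : ℤ) ≤ d := by exact_mod_cast hd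
  have h5 : (0 : ℤ) ≤ (2 * d - 1) * (M + Q.ord v c) := mul_nonneg (by linarith) (by linarith)
  nlinarith

/-- **STEP** -/
theorem step (Q : PlaceData k K) (d : ℕ) (hd : 2 ≤ d) (z : Fin (d + 1) → k)
    (hz : Function.Injective z) (r : Fin (d + 1) → K) (hr0 : ∀ i, r i ≠ 0) (hr : ∑ i, r i = 1)
    (x : K) (hx : (AA (fun i => algebraMap k K (z i)) r).eval x ≠ 0) :
    (d : ℤ) * hQ Q x - (2 * d - 1) * ∑ i, hQ Q (r i) ≤
      hQ Q (vl (PP (fun i => algebraMap k K (z i)) r) (AA (fun i => algebraMap k K (z i)) r) x) := by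
  classical
  set ζ : Fin (d + 1) → K := fun i => algebraMap k K (z i) with hζ
  have hζi : Function.Injective ζ := fun i j h => hz ((algebraMap k K).injective h)
  set p := PP ζ r with hp
  set q := AA ζ r with hq
  have hpd : p.natDegree ≤ d := natDegree_PP_le ζ r hr
  have hqd : q.natDegree = d := natDegree_AA ζ r hr
  have hR : resultant q p d d ≠ 0 :=
    res_ne d p q hpd hqd (by omega) (coprime_PA ζ r hζi hr0)
  obtain ⟨T, hT⟩ := exists_S Q
    ({x, vl p q x, resultant q p d d, q.eval x} ∪ univ.image r)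
  have e1 : ∀ v, v ∉ T → Q.pole v x = 0 := fun v hv => (hT v hv x (by simp)).2
  have e2 : ∀ v, v ∉ T → Q.pole v (vl p q x) = 0 := fun v hv => (hT v hv (vl p q x) (by simp)).2
  have e3 : ∀ v, v ∉ T → Q.ord v (resultant q p d d) = 0 :=
    fun v hv => (hT v hv (resultant q p d d) (by simp)).1 hR
  have e4 : ∀ v, v ∉ T → Q.ord v (q.eval x) = 0 := fun v hv => (hT v hv (q.eval x) (by simp)).1 hx
  have e5 : ∀ i v, v ∉ T → Q.pole v (r i) = 0 := fun i v hv => (hT v hv (r i) (by simp)).2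
  have s1 := hQ_eq Q x T e1
  have s2 := hQ_eq Q (vl p q x) T e2
  have s3 := prod_zero Q T _ hR e3
  have s4 := prod_zero Q T _ hx e4
  have s5 : ∑ v ∈ T, Q.wt v * ∑ i, Q.pole v (r i) = ∑ i, hQ Q (r i) := by
    have : ∀ i, hQ Q (r i) = ∑ v ∈ T, Q.wt v * Q.pole v (r i) := fun i => (hQ_eq Q (r i) T (e5 i)).symm
    rw [Finset.sum_congr rfl fun i _ => this i, Finset.sum_comm]
    exact Finset.sum_congr rfl fun v _ => Finset.mul_sum _ _ _
  have key : ∀ v ∈ T, (d : ℤ) * (Q.wt v * Q.pole v x) ≤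
      Q.wt v * Q.ord v (resultant q p d d) - Q.wt v * Q.ord v (q.eval x) +
        Q.wt v * Q.pole v (vl p q x) + (2 * d - 1) * (Q.wt v * ∑ i, Q.pole v (r i)) := by
    intro v _
    have h := loc Q v d (by omega) p q hpd hqd hR (∑ i, Q.pole v (r i))
      (G_PP v z r) (G_AA v z r) x hx
    have h2 := mul_le_mul_of_nonneg_left h (Q.wt_nonneg v)
    linarith
  have h := Finset.sum_le_sum key
  rw [Finset.sum_add_distrib, Finset.sum_add_distrib, Finset.sum_sub_distrib, ← Finset.mul_sum,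
    ← Finset.mul_sum, s1, s2, s3, s4, s5] at h
  linarith

end

theorem t_STEP : S_STEP.{u, v, w} := by
  intro k K _ _ _ _ Q d hd z hz ζ hζ r hr0 hr x hx
  obtain rfl : ζ = fun i => algebraMap k K (z i) := funext hζ
  exact step Q d hd z hz r hr0 hr x hx

end Pool.Agent.X263.FP
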